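import Mathlib
import Pool.Agent.Helper448.Plane

set_option autoImplicit false

namespace Pool.Agent.Results.MP_f50651_co.DegreeFiveUnbounded

/-- The plane. -/
abbrev Plane := EuclideanSpace ℝ (Fin 2)

/-- `p` is a straight-line drawing of `G`: the vertices are placed at distinct points and no edge,
drawn as the closed segment between its ends, passes through a vertex other than its ends. -/
structure IsDrawing {V : Type} (G : SimpleGraph V) (p : V → Plane) : Prop where
  injective : Function.Injective p
  avoid : ∀ u v w : V, G.Adj u v → w ≠ u → w ≠ v → p w ∉ segment ℝ (p u) (p v)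

/-- The segments of the edges `uv` and `xy` share a point that is not a common endpoint. -/
def Cross {V : Type} (p : V → Plane) (u v x y : V) : Prop :=
  ∃ z : Plane, z ∈ segment ℝ (p u) (p v) ∧ z ∈ segment ℝ (p x) (p y) ∧
    ¬ ∃ w : V, (w = u ∨ w = v) ∧ (w = x ∨ w = y) ∧ z = p w

/-- Some straight-line drawing of `G` admits a colouring of the edges with `k` colours in which
no two (distinct) edges of the same colour cross. -/
def DrawableWith {V : Type} (G : SimpleGraph V) (k : ℕ) : Prop :=
  ∃ p : V → Plane, IsDrawing G p ∧ ∃ c : G.edgeSet → Fin k,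
    ∀ (u v x y : V) (h : G.Adj u v) (h' : G.Adj x y), s(u, v) ≠ s(x, y) →
      c ⟨s(u, v), h⟩ = c ⟨s(x, y), h'⟩ → ¬ Cross p u v x y

/-- The geometric thickness. -/
noncomputable def geometricThickness {V : Type} (G : SimpleGraph V) : ℕ :=
  sInf {k | DrawableWith G k}

/-- Every finite graph has a drawing with a suitable colouring, so the infimum is a minimum. -/
theorem exists_drawableWith {V : Type} [Finite V] (G : SimpleGraph V) :
    ∃ k, DrawableWith G k := by
  classical
  have := Fintype.ofFinite V
  obtain ⟨f, hf⟩ : ∃ f : V → ℝ, Function.Injective f :=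
    ⟨fun v => ((Fintype.equivFin V v : ℕ) : ℝ), fun u v h => by
      have h1 : ((Fintype.equivFin V u : ℕ) : ℝ) = ((Fintype.equivFin V v : ℕ) : ℝ) := h
      exact (Fintype.equivFin V).injective (Fin.ext (by exact_mod_cast h1))⟩
  refine ⟨Fintype.card G.edgeSet, fun v => !₂[f v, (f v) ^ 2], ⟨?_, ?_⟩,
    Fintype.equivFin G.edgeSet, ?_⟩
  · intro u v h
    apply hf
    have := congrArg (fun q : Plane => q 0) h
    simpa using this
  · rintro u v w huv hwu hwv ⟨a, b, ha, hb, hab, h⟩
    have h0 := congrArg (fun q : Plane => q 0) h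
    have h1 := congrArg (fun q : Plane => q 1) h
    simp at h0 h1
    have hne : f u ≠ f v := fun h => huv.ne (hf h)
    have h2 : a * b * (f u - f v) ^ 2 = 0 := by
      have hb' : b = 1 - a := by linarith
      subst hb'
      rw [← h0] at h1
      nlinarith
    have h3 : (f u - f v) ^ 2 ≠ 0 := pow_ne_zero _ (sub_ne_zero.mpr hne)
    rcases mul_eq_zero.mp ((mul_eq_zero.mp h2).resolve_right h3) with ha0 | hb0
    · apply hwv
      apply hf
      rw [← h0, ha0]
      have : b = 1 := by linarith
      rw [this]; ring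
    · apply hwu
      apply hf
      rw [← h0, hb0]
      have : a = 1 := by linarith
      rw [this]; ring
  · intro u v x y h h' hne hc
    exfalso
    apply hne
    have := (Fintype.equivFin G.edgeSet).injective hc
    exact congrArg Subtype.val this

/-- **Graphs of maximum degree `Δ` have unbounded geometric thickness for every `Δ ≥ 5`.**
For every `Δ ≥ 5` and every `C` there is a finite simple graph of maximum degree `Δ` whose
geometric thickness exceeds `C`. -/
theorem result : ∀ Δ : ℕ, 5 ≤ Δ → ∀ C : ℕ,
    ∃ (V : Type) (_ : Fintype V) (_ : DecidableEq V) (G : SimpleGraph V)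
      (_ : DecidableRel G.Adj), G.maxDegree = Δ ∧ C < geometricThickness G := by
  classical
  intro Δ hΔ C
  obtain ⟨m, σ, hσ⟩ := Pool.Agent.Helper448.Plane.no_plane_drawing (C + 1) (Nat.succ_pos C)
  refine ⟨(Fin m ⊕ Fin m) ⊕ Fin (Δ + 1), inferInstance, inferInstance,
    Pool.Agent.Helper448.Plane.gr σ Δ, Classical.decRel _,
    Pool.Agent.Helper448.Plane.gr_maxDegree σ Δ hΔ, ?_⟩
  by_contra hcon
  have hmem : DrawableWith (Pool.Agent.Helper448.Plane.gr σ Δ)
      (geometricThickness (Pool.Agent.Helper448.Plane.gr σ Δ)) :=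
    Nat.sInf_mem (exists_drawableWith _)
  obtain ⟨p, hp, c, hc⟩ := hmem
  have hadj := Pool.Agent.Helper448.Plane.gr_adj σ Δ
  obtain ⟨j, a, a', hne, hcc, z, hz1, hz2⟩ := hσ (fun v => p (Sum.inl v))
    (fun j a => ⟨c ⟨s(Sum.inl (Sum.inl a), Sum.inl (Sum.inr (σ j a))), hadj j a⟩, by
      have := (c ⟨s(Sum.inl (Sum.inl a), Sum.inl (Sum.inr (σ j a))), hadj j a⟩).2
      omega⟩)
    (fun u v h => Sum.inl_injective (hp.injective h))
    (by
      intro j a v h1 h2
      exact hp.avoid _ _ _ (hadj j a) (fun h => h1 (Sum.inl_injective h))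
        (fun h => h2 (Sum.inl_injective h)))
  have hσne : σ j a ≠ σ j a' := fun h => hne ((σ j).injective h)
  refine hc _ _ _ _ (hadj j a) (hadj j a') ?_ ?_ ⟨z, hz1, hz2, ?_⟩
  · simp [hne]
  · apply Fin.ext
    simpa using hcc
  · rintro ⟨w, h1 | h1, h2 | h2, _⟩
    · rw [h1] at h2; simp [hne] at h2
    · rw [h1] at h2; simp at h2
    · rw [h1] at h2; simp at h2
    · rw [h1] at h2; simp [hσne] at h2

end Pool.Agent.Results.MP_f50651_co.DegreeFiveUnbounded
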